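import Pool.Agent.K4H69.TT.Num

set_option autoImplicit false

/-!
# Two vertices of the third class

`g`, `h` are the link graphs of two vertices, `i` is the indicator of the common neighbourhood of
the pair.
-/

namespace K4H69.TT

open Finset

variable {V : Type}

/-- ordered pairs of `g` with both ends in `X` -/
def PP (g : V → V → ℤ) (X Y : Finset V) : ℤ := ∑ x ∈ X, ∑ y ∈ Y, g x y

theorem zo_mul {x y : ℤ} (hx : x = 0 ∨ x = 1) (hy : y = 0 ∨ y = 1) : x * y = 0 ∨ x * y = 1 := by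
  rcases hx with rfl | rfl <;> rcases hy with rfl | rfl <;> simp

theorem zo_le {x : ℤ} (hx : x = 0 ∨ x = 1) : x ≤ 1 := by
  rcases hx with rfl | rfl <;> norm_num

theorem zo_nn {x : ℤ} (hx : x = 0 ∨ x = 1) : 0 ≤ x := by
  rcases hx with rfl | rfl <;> norm_num

theorem L1 {a b c d : ℤ} (ha : a = 0 ∨ a = 1) (hb : b = 0 ∨ b = 1) (hc : c = 0 ∨ c = 1)
    (hd : d = 0 ∨ d = 1) (h : a * b * (c * d) = 0) : a + b ≤ 2 - c * d := by
  rcases ha with rfl | rfl <;> rcases hb with rfl | rfl <;> rcases hc with rfl | rfl <;>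
    rcases hd with rfl | rfl <;> omega

theorem L3 {a b c d : ℤ} (ha : a = 0 ∨ a = 1) (hb : b = 0 ∨ b = 1) (hc : c = 0 ∨ c = 1)
    (hd : d = 0 ∨ d = 1) (h : a * b * (c * d) = 0) : (a + b) * (c * d) ≤ c * d := by
  rcases ha with rfl | rfl <;> rcases hb with rfl | rfl <;> rcases hc with rfl | rfl <;>
    rcases hd with rfl | rfl <;> omega

theorem L4 {a b : ℤ} (ha : a = 0 ∨ a = 1) (hb : b = 0 ∨ b = 1) (h : a * b = 0) : a + b ≤ 1 := by
  rcases ha with rfl | rfl <;> rcases hb with rfl | rfl <;> omega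

theorem L5 {a b c : ℤ} (ha : a = 0 ∨ a = 1) (hb : b = 0 ∨ b = 1) (hc : c = 0 ∨ c = 1) :
    c * (a + b) ≤ c + c * (a * b) := by
  rcases ha with rfl | rfl <;> rcases hb with rfl | rfl <;> rcases hc with rfl | rfl <;> norm_num

theorem L2 {a b c d p q r s : ℤ} (ha : a = 0 ∨ a = 1) (hb : b = 0 ∨ b = 1) (hc : c = 0 ∨ c = 1)
    (hd : d = 0 ∨ d = 1) (hp : p = 0 ∨ p = 1) (hq : q = 0 ∨ q = 1) (hr : r = 0 ∨ r = 1)
    (hs : s = 0 ∨ s = 1) (h1 : a * (p * q) = 0) (h2 : b * (r * s) = 0)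
    (h3 : a * b * (c * d) = 0) :
    (a + b) * (c * d) + (c * (p * r)) * (d * (q * s)) ≤ c * d := by
  have h4 := L3 ha hb hc hd h3
  rcases zo_mul (zo_mul hp hr) (zo_mul hq hs) with e | e
  · have e' : (c * (p * r)) * (d * (q * s)) = 0 := by
      have : (c * (p * r)) * (d * (q * s)) = c * d * ((p * r) * (q * s)) := by ring
      rw [this, e, mul_zero]
    rw [e', add_zero]
    exact h4
  · have hp1 : p = 1 := by
      rcases hp with rfl | rfl
      · norm_num at e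
      · rfl
    have hr1 : r = 1 := by
      rcases hr with rfl | rfl
      · norm_num at e
      · rfl
    have hq1 : q = 1 := by
      rcases hq with rfl | rfl
      · norm_num at e
      · rfl
    have hs1 : s = 1 := by
      rcases hs with rfl | rfl
      · norm_num at e
      · rfl
    subst hp1 hr1 hq1 hs1
    norm_num at h1 h2
    rw [h1, h2]
    norm_num

/-- the part inside the second class -/
theorem pair_BB (g h : V → V → ℤ) (i : V → ℤ) (B : Finset V) (hg : ∀ x y, g x y = 0 ∨ g x y = 1)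
    (hh : ∀ x y, h x y = 0 ∨ h x y = 1) (hi : ∀ x, i x = 0 ∨ i x = 1)
    (hI : ∀ x ∈ B, ∀ y ∈ B, g x y * h x y * (i x * i y) = 0) :
    PP g B B + PP h B B ≤ 2 * (B.card : ℤ) ^ 2 - (∑ b ∈ B, i b) ^ 2 := by
  have h1 : PP g B B + PP h B B = ∑ x ∈ B, ∑ y ∈ B, (g x y + h x y) := by
    unfold PP
    rw [← sum_add_distrib]
    exact sum_congr rfl fun x _ => (sum_add_distrib).symm
  have h2 : ∑ x ∈ B, ∑ y ∈ B, (g x y + h x y) ≤ ∑ x ∈ B, ∑ y ∈ B, (2 - i x * i y) := by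
    refine sum_le_sum fun x hx => sum_le_sum fun y hy => ?_
    exact L1 (hg x y) (hh x y) (hi x) (hi y) (hI x hx y hy)
  have h4 : ∑ x ∈ B, ∑ y ∈ B, (2 - i x * i y) =
      2 * (B.card : ℤ) ^ 2 - (∑ b ∈ B, i b) ^ 2 := by
    have h5 : (∑ b ∈ B, i b) ^ 2 = ∑ x ∈ B, ∑ y ∈ B, i x * i y := by
      rw [sq, sum_mul_sum]
    rw [h5]
    simp only [sum_sub_distrib, sum_const, nsmul_eq_mul]
    ring
  rw [h1, ← h4]
  exact h2

/-- the part which meets the first class -/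
theorem pair_A (g h : V → V → ℤ) (i : V → ℤ) (A B : Finset V)
    (hg : ∀ x y, g x y = 0 ∨ g x y = 1) (hh : ∀ x y, h x y = 0 ∨ h x y = 1)
    (hi : ∀ x, i x = 0 ∨ i x = 1)
    (hTg : ∀ x ∈ A, ∀ y ∈ A, ∀ b ∈ B, g x y * (g x b * g y b) = 0)
    (hTh : ∀ x ∈ A, ∀ y ∈ A, ∀ b ∈ B, h x y * (h x b * h y b) = 0)
    (hIA : ∀ x ∈ A, ∀ y ∈ A, g x y * h x y * (i x * i y) = 0)
    (hIB : ∀ x ∈ A, ∀ b ∈ B, g x b * h x b * (i x * i b) = 0)
    (hab : (A.card : ℤ) ≤ B.card) :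
    ∃ w : ℤ, 0 ≤ w ∧ w ≤ ∑ a ∈ A, i a ∧
      (A.card : ℤ) * (PP g A A + PP h A A + 2 * (PP g A B + PP h A B)) ≤
        4 * (A.card : ℤ) ^ 2 * B.card - (∑ a ∈ A, i a) ^ 2 * (2 * B.card - A.card)
          + 2 * (∑ a ∈ A, i a) * (B.card - ∑ b ∈ B, i b) * w - A.card * w ^ 2 := by
  classical
  set α : ℤ := (A.card : ℤ) with hα
  set β : ℤ := (B.card : ℤ) with hβ
  set X : ℤ := ∑ a ∈ A, i a with hX
  set Y : ℤ := ∑ b ∈ B, i b with hY
  have hα0 : 0 ≤ α := by positivity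
  -- the function whose square is used
  set W : V → ℤ := fun b => ∑ a ∈ A, i a * (g a b * h a b) with hW
  have hW0 : ∀ b, 0 ≤ W b := fun b => sum_nonneg fun a _ =>
    mul_nonneg (zo_nn (hi a)) (mul_nonneg (zo_nn (hg a b)) (zo_nn (hh a b)))
  have hWX : ∀ b, W b ≤ X := fun b => sum_le_sum fun a _ => by
    have := zo_le (zo_mul (hg a b) (hh a b))
    have := zo_nn (hi a)
    nlinarith
  -- the maximum
  obtain ⟨w, hw0, hwX, hwmax, hwpair⟩ : ∃ w : ℤ, 0 ≤ w ∧ w ≤ X ∧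
      (∀ b ∈ B, i b = 0 → W b ≤ w) ∧
      ∑ x ∈ A, ∑ y ∈ A, (g x y + h x y) * (i x * i y) + w ^ 2 ≤ X ^ 2 := by
    have hXsq : X ^ 2 = ∑ x ∈ A, ∑ y ∈ A, i x * i y := by
      rw [hX, sq, sum_mul_sum]
    by_cases hne : (B.filter (fun b => i b = 0)).Nonempty
    · obtain ⟨b0, hb0, hmax⟩ := exists_max_image _ W hne
      rw [mem_filter] at hb0
      refine ⟨W b0, hW0 b0, hWX b0, fun b hb hib => hmax b (mem_filter.2 ⟨hb, hib⟩), ?_⟩
      have h1 : (W b0) ^ 2 = ∑ x ∈ A, ∑ y ∈ A,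
          (i x * (g x b0 * h x b0)) * (i y * (g y b0 * h y b0)) := by
        rw [hW, sq, sum_mul_sum]
      rw [h1, hXsq, ← sum_add_distrib]
      refine sum_le_sum fun x hx => ?_
      rw [← sum_add_distrib]
      refine sum_le_sum fun y hy => ?_
      exact L2 (hg x y) (hh x y) (hi x) (hi y) (hg x b0) (hg y b0) (hh x b0) (hh y b0)
        (hTg x hx y hy b0 hb0.1) (hTh x hx y hy b0 hb0.1) (hIA x hx y hy)
    · rw [not_nonempty_iff_eq_empty, filter_eq_empty_iff] at hne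
      refine ⟨0, le_rfl, sum_nonneg fun a _ => zo_nn (hi a), fun b hb hib => absurd hib (hne hb),
        ?_⟩
      rw [hXsq]
      have : ∑ x ∈ A, ∑ y ∈ A, (g x y + h x y) * (i x * i y) ≤
          ∑ x ∈ A, ∑ y ∈ A, i x * i y := by
        refine sum_le_sum fun x hx => sum_le_sum fun y hy => ?_
        exact L3 (hg x y) (hh x y) (hi x) (hi y) (hIA x hx y hy)
      linarith
  refine ⟨w, hw0, hwX, ?_⟩
  -- degrees
  set D : V → ℤ := fun a => ∑ b ∈ B, (g a b + h a b) with hD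
  have hsumD : ∑ a ∈ A, D a = PP g A B + PP h A B := by
    rw [hD]
    unfold PP
    rw [← sum_add_distrib]
    exact sum_congr rfl fun a _ => sum_add_distrib
  set Fn : V → V → ℤ := fun x y => D x + D y + α * (g x y + h x y) with hFn
  have hsumF : ∑ x ∈ A, ∑ y ∈ A, Fn x y =
      α * (PP g A A + PP h A A + 2 * (PP g A B + PP h A B)) := by
    have h1 : ∑ x ∈ A, ∑ y ∈ A, Fn x y = ∑ x ∈ A, ∑ y ∈ A, D x + ∑ x ∈ A, ∑ y ∈ A, D y +
        (α * ∑ x ∈ A, ∑ y ∈ A, g x y + α * ∑ x ∈ A, ∑ y ∈ A, h x y) := by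
      rw [hFn]
      simp only [sum_add_distrib, mul_add, mul_sum]
    have h2 : ∑ x ∈ A, ∑ y ∈ A, D x = α * ∑ a ∈ A, D a := by
      simp only [sum_const, nsmul_eq_mul, mul_sum, hα]
    have h3 : ∑ x ∈ A, ∑ y ∈ A, D y = α * ∑ a ∈ A, D a := by
      rw [sum_const, nsmul_eq_mul]
    rw [h1, h2, h3, hsumD]
    unfold PP
    ring
  -- the pointwise bound
  have hdeg : ∀ (k : V → V → ℤ), (∀ x y, k x y = 0 ∨ k x y = 1) →
      (∀ x ∈ A, ∀ y ∈ A, ∀ b ∈ B, k x y * (k x b * k y b) = 0) → ∀ x ∈ A, ∀ y ∈ A,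
      ∑ b ∈ B, k x b + ∑ b ∈ B, k y b + α * k x y ≤ 2 * β := by
    intro k hk hT x hx y hy
    rw [← sum_add_distrib]
    rcases hk x y with e | e
    · rw [e, mul_zero, add_zero]
      have : ∑ b ∈ B, (k x b + k y b) ≤ ∑ b ∈ B, (2 : ℤ) := sum_le_sum fun b _ => by
        have := zo_le (hk x b)
        have := zo_le (hk y b)
        linarith
      rw [sum_const, nsmul_eq_mul] at this
      linarith
    · rw [e, mul_one]
      have : ∑ b ∈ B, (k x b + k y b) ≤ ∑ b ∈ B, (1 : ℤ) := sum_le_sum fun b hb => by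
        have h1 := hT x hx y hy b hb
        rw [e, one_mul] at h1
        exact L4 (hk x b) (hk y b) h1
      rw [sum_const, nsmul_eq_mul, mul_one] at this
      linarith
  have hpt : ∀ x ∈ A, ∀ y ∈ A, Fn x y ≤ 4 * β := by
    intro x hx y hy
    have h1 := hdeg g hg hTg x hx y hy
    have h2 := hdeg h hh hTh x hx y hy
    have h3 : Fn x y = (∑ b ∈ B, g x b + ∑ b ∈ B, g y b + α * g x y) +
        (∑ b ∈ B, h x b + ∑ b ∈ B, h y b + α * h x y) := by
      rw [hFn, hD]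
      simp only [sum_add_distrib]
      ring
    rw [h3]
    linarith
  have hXsq : X ^ 2 = ∑ x ∈ A, ∑ y ∈ A, i x * i y := by
    rw [hX, sq, sum_mul_sum]
  have hle : ∑ x ∈ A, ∑ y ∈ A, Fn x y ≤
      ∑ x ∈ A, ∑ y ∈ A, (4 * β * (1 - i x * i y) + Fn x y * (i x * i y)) := by
    refine sum_le_sum fun x hx => sum_le_sum fun y hy => ?_
    have h1 := hpt x hx y hy
    rcases zo_mul (hi x) (hi y) with e | e
    · rw [e]; linarith
    · rw [e]; linarith
  have hsplit : ∑ x ∈ A, ∑ y ∈ A, (4 * β * (1 - i x * i y) + Fn x y * (i x * i y)) =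
      4 * β * (α ^ 2 - X ^ 2) + (2 * X * ∑ x ∈ A, i x * D x +
        α * ∑ x ∈ A, ∑ y ∈ A, (g x y + h x y) * (i x * i y)) := by
    have h1 : ∀ x y, 4 * β * (1 - i x * i y) + Fn x y * (i x * i y) =
        4 * β + (- (4 * β)) * (i x * i y) + ((i x * D x) * i y + i x * (i y * D y)) +
          α * ((g x y + h x y) * (i x * i y)) := by
      intro x y
      rw [hFn]
      ring
    rw [sum_congr rfl fun x _ => sum_congr rfl fun y _ => h1 x y]
    simp only [sum_add_distrib, ← mul_sum, ← sum_mul, sum_const, nsmul_eq_mul]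
    have h2 : ∑ x ∈ A, i x * ∑ y ∈ A, i y = X ^ 2 := by
      rw [← sum_mul, hX, sq]
    simp only [← hX, ← hα] at *
    ring
  -- the degrees into the common neighbourhood
  have hID : ∑ x ∈ A, i x * D x ≤ β * X + (β - Y) * w := by
    have h1 : ∑ x ∈ A, i x * D x = ∑ b ∈ B, ∑ x ∈ A, i x * (g x b + h x b) := by
      rw [sum_comm]
      refine sum_congr rfl fun x _ => ?_
      rw [hD, mul_sum]
    have h2 : ∀ b ∈ B, ∑ x ∈ A, i x * (g x b + h x b) ≤ X + (1 - i b) * w := by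
      intro b hb
      have h3 : ∑ x ∈ A, i x * (g x b + h x b) ≤ X + W b := by
        rw [hX, hW, ← sum_add_distrib]
        exact sum_le_sum fun x _ => L5 (hg x b) (hh x b) (hi x)
      rcases hi b with e | e
      · have := hwmax b hb e
        rw [e]
        linarith
      · have h4 : W b = 0 := by
          rw [hW]
          refine sum_eq_zero fun x hx => ?_
          have h5 := hIB x hx b hb
          rw [e, mul_one] at h5
          linarith
        rw [e]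
        linarith
    rw [h1]
    refine (sum_le_sum h2).trans (le_of_eq ?_)
    rw [sum_add_distrib, sum_const, nsmul_eq_mul, ← sum_mul, sum_sub_distrib, sum_const,
      nsmul_eq_mul, mul_one]
  have hX0 : 0 ≤ X := sum_nonneg fun a _ => zo_nn (hi a)
  rw [← hsumF]
  refine hle.trans ?_
  rw [hsplit]
  have h5 : 2 * X * ∑ x ∈ A, i x * D x ≤ 2 * X * (β * X + (β - Y) * w) :=
    mul_le_mul_of_nonneg_left hID (by positivity)
  have h6 : α * ∑ x ∈ A, ∑ y ∈ A, (g x y + h x y) * (i x * i y) ≤ α * (X ^ 2 - w ^ 2) :=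
    mul_le_mul_of_nonneg_left (by linarith) hα0
  nlinarith

/-- the bound for two link graphs -/
theorem pair (g h : V → V → ℤ) (i : V → ℤ) (A B : Finset V) (c : ℤ)
    (hg : ∀ x y, g x y = 0 ∨ g x y = 1) (hh : ∀ x y, h x y = 0 ∨ h x y = 1)
    (hi : ∀ x, i x = 0 ∨ i x = 1)
    (hTg : ∀ x ∈ A, ∀ y ∈ A, ∀ b ∈ B, g x y * (g x b * g y b) = 0)
    (hTh : ∀ x ∈ A, ∀ y ∈ A, ∀ b ∈ B, h x y * (h x b * h y b) = 0)
    (hIA : ∀ x ∈ A, ∀ y ∈ A, g x y * h x y * (i x * i y) = 0)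
    (hIB : ∀ x ∈ A, ∀ b ∈ B, g x b * h x b * (i x * i b) = 0)
    (hIBB : ∀ x ∈ B, ∀ y ∈ B, g x y * h x y * (i x * i y) = 0)
    (hc0 : 0 ≤ c) (hca : c ≤ A.card) (hab : (A.card : ℤ) ≤ B.card) (ha : 0 < A.card) :
    (PP g A A + 2 * PP g A B + PP g B B) + (PP h A A + 2 * PP h A B + PP h B B) +
      2 * c * (∑ a ∈ A, i a + ∑ b ∈ B, i b) ≤
      2 * (2 * (A.card : ℤ) * B.card + (B.card : ℤ) ^ 2) + 2 * (A.card : ℤ) * c := by
  obtain ⟨w, hw0, hwX, h1⟩ := pair_A g h i A B hg hh hi hTg hTh hIA hIB hab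
  have h2 := pair_BB g h i B hg hh hi hIBB
  set X : ℤ := ∑ a ∈ A, i a with hX
  set Y : ℤ := ∑ b ∈ B, i b with hY
  have hX0 : 0 ≤ X := sum_nonneg fun a _ => zo_nn (hi a)
  have hY0 : 0 ≤ Y := sum_nonneg fun a _ => zo_nn (hi a)
  have hXa : X ≤ A.card := by
    rw [hX]
    refine (sum_le_sum fun a _ => zo_le (hi a)).trans ?_
    rw [sum_const, nsmul_eq_mul, mul_one]
  have hYb : Y ≤ B.card := by
    rw [hY]
    refine (sum_le_sum fun a _ => zo_le (hi a)).trans ?_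
    rw [sum_const, nsmul_eq_mul, mul_one]
  have h3 := num (A.card : ℝ) (B.card : ℝ) (c : ℝ) (X : ℝ) (Y : ℝ) (w : ℝ)
    (by exact_mod_cast ha) (by exact_mod_cast hc0) (by exact_mod_cast hca)
    (by exact_mod_cast hab) (by exact_mod_cast hX0) (by exact_mod_cast hXa)
    (by exact_mod_cast hY0) (by exact_mod_cast hYb) (by exact_mod_cast hw0)
    (by exact_mod_cast hwX)
  have h4 : 2 * (A.card : ℤ) * c * (X + Y - A.card) ≤
      X ^ 2 * (2 * B.card - A.card) - 2 * X * (B.card - Y) * w + A.card * w ^ 2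
        + A.card * Y ^ 2 := by
    exact_mod_cast h3
  have ha' : (0 : ℤ) < A.card := by exact_mod_cast ha
  have h5 : (A.card : ℤ) * ((PP g A A + 2 * PP g A B + PP g B B) +
      (PP h A A + 2 * PP h A B + PP h B B) + 2 * c * (X + Y)) ≤ (A.card : ℤ) *
      (2 * (2 * (A.card : ℤ) * B.card + (B.card : ℤ) ^ 2) + 2 * (A.card : ℤ) * c) := by
    have h6 := mul_le_mul_of_nonneg_left h2 ha'.le
    nlinarith
  exact le_of_mul_le_mul_left h5 ha'

end K4H69.TT
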