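import Pool.Agent.K4H69.TT.Core

set_option autoImplicit false

/-!
# Counting edges by classes
-/

namespace K4H69.TT

open Finset

variable {V : Type} [DecidableEq V]

/-- membership in the 3-graph `H` as a 0/1 function -/
def tt (H : Finset (Finset V)) (a b c : V) : ℤ := if ({a, b, c} : Finset V) ∈ H then 1 else 0

theorem tt_zo (H : Finset (Finset V)) (a b c : V) : tt H a b c = 0 ∨ tt H a b c = 1 := by
  unfold tt
  split_ifs <;> simp

theorem tt_s1 (H : Finset (Finset V)) (a b c : V) : tt H a b c = tt H b a c := by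
  unfold tt
  rw [Finset.insert_comm]

theorem tt_s2 (H : Finset (Finset V)) (a b c : V) : tt H a b c = tt H a c b := by
  unfold tt
  rw [Finset.pair_comm]

theorem tt_diag {H : Finset (Finset V)} (h3 : ∀ s ∈ H, s.card = 3) (a b : V) : tt H a a b = 0 := by
  unfold tt
  rw [if_neg]
  intro h
  have h1 := h3 _ h
  have h2 : ({a, a, b} : Finset V).card ≤ 2 := by
    rw [Finset.insert_eq_of_mem (Finset.mem_insert_self a {b})]
    exact Finset.card_le_two
  omega

theorem tt_eq_one {H : Finset (Finset V)} {a b c : V} (h : tt H a b c = 1) :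
    ({a, b, c} : Finset V) ∈ H := by
  unfold tt at h
  by_contra h1
  rw [if_neg h1] at h
  exact zero_ne_one h

/-- the number of ordered edges is `6 |H|` -/
theorem sum_tt [Fintype V] {H : Finset (Finset V)}
    (h3 : ∀ s ∈ H, s.card = 3) : ∑ a, ∑ b, ∑ c, tt H a b c = 6 * (H.card : ℤ) := by
  have h1 : ∑ a, ∑ b, ∑ c, tt H a b c =
      ∑ s ∈ H, ∑ a : V, ∑ b : V, ∑ c : V, (if ({a, b, c} : Finset V) = s then (1 : ℤ) else 0) := by
    have e1 : ∀ a b c : V, tt H a b c = ∑ s ∈ H, (if ({a, b, c} : Finset V) = s then 1 else 0) := by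
      intro a b c
      rw [Finset.sum_ite_eq]
      rfl
    rw [sum_congr rfl fun a _ => sum_congr rfl fun b _ => sum_congr rfl fun c _ => e1 a b c]
    rw [sum_congr rfl fun a _ => sum_congr rfl fun b _ => sum_comm]
    rw [sum_congr rfl fun a _ => sum_comm]
    rw [sum_comm]
  rw [h1]
  have h2 : ∀ s ∈ H, ∑ a : V, ∑ b : V, ∑ c : V,
      (if ({a, b, c} : Finset V) = s then (1 : ℤ) else 0) = 6 := by
    intro s hs
    obtain ⟨x, y, z, hxy, hxz, hyz, rfl⟩ := Finset.card_eq_three.mp (h3 s hs)
    have e2 : ∀ a b c : V, (if ({a, b, c} : Finset V) = {x, y, z} then (1 : ℤ) else 0) =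
        (if a = x ∧ b = y ∧ c = z then 1 else 0) + (if a = x ∧ b = z ∧ c = y then 1 else 0)
        + (if a = y ∧ b = x ∧ c = z then 1 else 0) + (if a = y ∧ b = z ∧ c = x then 1 else 0)
        + (if a = z ∧ b = x ∧ c = y then 1 else 0)
        + (if a = z ∧ b = y ∧ c = x then 1 else 0) := by
      intro a b c
      by_cases h : ({a, b, c} : Finset V) = {x, y, z}
      · rw [if_pos h]
        have ha : a ∈ ({x, y, z} : Finset V) := by rw [← h]; simp
        have hb : b ∈ ({x, y, z} : Finset V) := by rw [← h]; simp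
        have hc : c ∈ ({x, y, z} : Finset V) := by rw [← h]; simp
        have hcard : ({a, b, c} : Finset V).card = 3 := by
          rw [h]; exact Finset.card_eq_three.mpr ⟨x, y, z, hxy, hxz, hyz, rfl⟩
        have hab : a ≠ b := by
          rintro rfl
          have : ({a, a, c} : Finset V).card ≤ 2 := by
            rw [Finset.insert_eq_of_mem (Finset.mem_insert_self a {c})]; exact Finset.card_le_two
          omega
        have hbc : b ≠ c := by
          rintro rfl
          have : ({a, b, b} : Finset V).card ≤ 2 := by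
            rw [Finset.insert_eq_of_mem (Finset.mem_singleton_self b)]; exact Finset.card_le_two
          omega
        have hac : a ≠ c := by
          rintro rfl
          have : ({a, b, a} : Finset V).card ≤ 2 := by
            rw [Finset.insert_eq_of_mem (show a ∈ ({b, a} : Finset V) by simp)]
            exact Finset.card_le_two
          omega
        clear h hcard
        simp only [mem_insert, mem_singleton] at ha hb hc
        rcases ha with rfl | rfl | rfl <;> rcases hb with rfl | rfl | rfl <;>
          rcases hc with rfl | rfl | rfl <;> simp_all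
      · rw [if_neg h]
        rw [if_neg, if_neg, if_neg, if_neg, if_neg, if_neg]
        all_goals
          first
          | (rintro ⟨rfl, rfl, rfl⟩
             apply h
             ext w
             simp only [mem_insert, mem_singleton] <;> tauto)
          | norm_num
    rw [sum_congr rfl fun a _ => sum_congr rfl fun b _ => sum_congr rfl fun c _ => e2 a b c]
    have e3 : ∀ u v w : V,
        ∑ a : V, ∑ b : V, ∑ c : V, (if a = u ∧ b = v ∧ c = w then (1 : ℤ) else 0) = 1 := by
      intro u v w
      rw [sum_eq_single u, sum_eq_single v, sum_eq_single w]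
      · simp
      · intro c _ hc; simp [hc]
      · simp
      · intro b _ hb; simp [hb]
      · simp
      · intro a _ ha; simp [ha]
      · simp
    simp only [sum_add_distrib, e3]
    norm_num
  rw [sum_congr rfl h2, sum_const, nsmul_eq_mul, mul_comm]

/-- the number of ordered edges with one vertex in each of the three sets -/
def TS (t : V → V → V → ℤ) (X Y Z : Finset V) : ℤ := ∑ x ∈ X, ∑ y ∈ Y, ∑ z ∈ Z, t x y z

omit [DecidableEq V] in
theorem TS_12 {t : V → V → V → ℤ} (h : ∀ x y z, t x y z = t y x z) (X Y Z : Finset V) :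
    TS t X Y Z = TS t Y X Z := by
  unfold TS
  rw [sum_comm]
  exact sum_congr rfl fun y _ => sum_congr rfl fun x _ => sum_congr rfl fun z _ => h x y z

omit [DecidableEq V] in
theorem TS_23 {t : V → V → V → ℤ} (h : ∀ x y z, t x y z = t x z y) (X Y Z : Finset V) :
    TS t X Y Z = TS t X Z Y := by
  unfold TS
  refine sum_congr rfl fun x _ => ?_
  rw [sum_comm]
  exact sum_congr rfl fun z _ => sum_congr rfl fun y _ => h x y z

/-- the main estimate; `A`, `B`, `C` are the classes -/
theorem main_count (t : V → V → V → ℤ) (ht : ∀ x y z, t x y z = 0 ∨ t x y z = 1)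
    (s1 : ∀ x y z, t x y z = t y x z) (s2 : ∀ x y z, t x y z = t x z y)
    (hd : ∀ x z, t x x z = 0)
    (hK : ∀ x y z w, t x y z * t x y w * (t x z w * t y z w) = 0)
    (A B C : Finset V) (hAB : ∀ x ∈ A, ∀ y ∈ A, ∀ z ∈ B, x ≠ y → t x y z = 1)
    (hab : A.card ≤ B.card) (hca : C.card ≤ A.card) :
    TS t A A B + TS t A B B + (TS t C A A + 2 * TS t C A B + TS t C B B) +
      (TS t C C A + TS t C C B) ≤
      (A.card : ℤ) * (A.card - 1) * B.card + (B.card : ℤ) * (B.card - 1) +
        C.card * (2 * A.card * B.card + (B.card : ℤ) ^ 2) +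
        (C.card : ℤ) * (C.card - 1) * A.card := by
  classical
  -- the triples with two vertices in `A` and one in `B`
  have h1 : TS t A A B ≤ (A.card : ℤ) * (A.card - 1) * B.card := by
    have h2 : ∀ x ∈ A, ∑ y ∈ A, ∑ z ∈ B, t x y z ≤ ((A.card : ℤ) - 1) * B.card := by
      intro x hx
      have h3 : ∀ y ∈ A, ∑ z ∈ B, t x y z ≤ (if y = x then 0 else (B.card : ℤ)) := by
        intro y _
        by_cases hxy : y = x
        · rw [if_pos hxy, hxy]
          exact (sum_eq_zero fun z _ => hd x z).le
        · rw [if_neg hxy]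
          refine (sum_le_sum fun z _ => zo_le (ht x y z)).trans ?_
          rw [sum_const, nsmul_eq_mul, mul_one]
      refine (sum_le_sum h3).trans (le_of_eq ?_)
      rw [← add_sum_erase _ _ hx, if_pos rfl, zero_add,
        sum_congr rfl (fun y hy => if_neg (ne_of_mem_erase hy)), sum_const, nsmul_eq_mul,
        card_erase_of_mem hx, Nat.cast_sub (card_pos.2 ⟨x, hx⟩), Nat.cast_one]
    unfold TS
    refine (sum_le_sum h2).trans (le_of_eq ?_)
    rw [sum_const, nsmul_eq_mul, mul_assoc]
  -- the triples with one vertex in `A` and two in `B`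
  have h2 : TS t A B B ≤ (B.card : ℤ) * (B.card - 1) := by
    have e : TS t A B B = ∑ y ∈ B, ∑ z ∈ B, ∑ x ∈ A, t x y z := by
      unfold TS
      rw [sum_comm]
      exact sum_congr rfl fun y _ => sum_comm
    rw [e]
    have h3 : ∀ y ∈ B, ∀ z ∈ B, ∑ x ∈ A, t x y z ≤ (if z = y then 0 else 1) := by
      intro y hy z hz
      by_cases hyz : z = y
      · rw [if_pos hyz, hyz]
        refine (sum_eq_zero fun x _ => ?_).le
        rw [s1, s2, hd]
      · rw [if_neg hyz]
        by_contra hcon
        push Not at hcon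
        -- two vertices in `A`
        have h4 : ∑ x ∈ A, t x y z = ((A.filter (fun x => t x y z = 1)).card : ℤ) := by
          rw [card_filter]
          push_cast
          refine sum_congr rfl fun x _ => ?_
          rcases ht x y z with e | e
          · rw [e]; norm_num
          · rw [e]; norm_num
        rw [h4] at hcon
        have h5 : 1 < (A.filter (fun x => t x y z = 1)).card := by exact_mod_cast hcon
        obtain ⟨a, ha, a', ha', hne⟩ := one_lt_card.1 h5
        rw [mem_filter] at ha ha'
        have h6 := hK a a' y z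
        have e1 : t a a' y = 1 := hAB a ha.1 a' ha'.1 y hy hne
        have e2 : t a a' z = 1 := hAB a ha.1 a' ha'.1 z hz hne
        rw [e1, e2, ha.2, ha'.2] at h6
        norm_num at h6
    have h4 : ∀ y ∈ B, ∑ z ∈ B, ∑ x ∈ A, t x y z ≤ (B.card : ℤ) - 1 := by
      intro y hy
      refine (sum_le_sum (h3 y hy)).trans (le_of_eq ?_)
      rw [← add_sum_erase _ _ hy, if_pos rfl, zero_add,
        sum_congr rfl (fun z hz => if_neg (ne_of_mem_erase hz)), sum_const, nsmul_eq_mul,
        card_erase_of_mem hy, Nat.cast_sub (card_pos.2 ⟨y, hy⟩), Nat.cast_one, mul_one]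
    refine (sum_le_sum h4).trans (le_of_eq ?_)
    rw [sum_const, nsmul_eq_mul]
  -- the triples which meet `C`
  set P : V → ℤ := fun c => PP (t c) A A + 2 * PP (t c) A B + PP (t c) B B with hP
  set J : V → V → ℤ := fun c c' => ∑ a ∈ A, t c c' a + ∑ b ∈ B, t c c' b with hJ
  have hS1 : TS t C A A + 2 * TS t C A B + TS t C B B = ∑ c ∈ C, P c := by
    rw [hP]
    unfold TS PP
    rw [mul_sum, ← sum_add_distrib, ← sum_add_distrib]
  have hS2 : TS t C C A + TS t C C B = ∑ c ∈ C, ∑ c' ∈ C, J c c' := by
    rw [hJ]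
    unfold TS
    simp only [sum_add_distrib]
  rw [hS1, hS2]
  rcases Nat.eq_zero_or_pos C.card with hC | hC
  · rw [card_eq_zero] at hC
    rw [hC]
    simp only [sum_empty, card_empty, Nat.cast_zero]
    linarith
  have hA : 0 < A.card := lt_of_lt_of_le hC hca
  have hC' : (0 : ℤ) < C.card := by exact_mod_cast hC
  have hpair : ∀ c c' : V, P c + P c' + 2 * (C.card : ℤ) * J c c' ≤
      2 * (2 * (A.card : ℤ) * B.card + (B.card : ℤ) ^ 2) +
        (if c' = c then 0 else 2 * (A.card : ℤ) * C.card) := by
    intro c c'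
    have hT : ∀ (d : V), ∀ x ∈ A, ∀ y ∈ A, ∀ b ∈ B, t d x y * (t d x b * t d y b) = 0 := by
      intro d x hx y hy b hb
      by_cases hxy : x = y
      · subst hxy
        have : t d x x = 0 := by rw [s1, s2, hd]
        rw [this, zero_mul]
      · have h5 := hK x y b d
        rw [hAB x hx y hy b hb hxy, one_mul] at h5
        have e1 : t x y d = t d x y := by rw [s2, s1]
        have e2 : t x b d = t d x b := by rw [s2, s1]
        have e3 : t y b d = t d y b := by rw [s2, s1]
        rw [e1, e2, e3] at h5
        exact h5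
    by_cases hcc : c' = c
    · subst hcc
      rw [if_pos rfl, add_zero]
      have hJ0 : J c' c' = 0 := by
        rw [hJ]
        change ∑ a ∈ A, t c' c' a + ∑ b ∈ B, t c' c' b = 0
        rw [sum_eq_zero fun a _ => hd c' a, sum_eq_zero fun a _ => hd c' a, add_zero]
      have h5 := pair (t c') (t c') (fun _ => 0) A B 0 (ht c') (ht c') (fun _ => Or.inl rfl)
        (hT c') (hT c') (by intros; simp) (by intros; simp) (by intros; simp) le_rfl
        (by positivity) (by exact_mod_cast hab) hA
      rw [hJ0, mul_zero, add_zero]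
      simpa using h5
    · rw [if_neg hcc]
      have hI : ∀ x y, t c x y * t c' x y * (t c c' x * t c c' y) = 0 := by
        intro x y
        have h5 := hK c c' x y
        linarith [h5, mul_comm (t c c' x * t c c' y) (t c x y * t c' x y)]
      have h5 := pair (t c) (t c') (t c c') A B C.card (ht c) (ht c') (ht c c')
        (hT c) (hT c') (fun x _ y _ => hI x y) (fun x _ y _ => hI x y) (fun x _ y _ => hI x y)
        hC'.le (by exact_mod_cast hca) (by exact_mod_cast hab) hA
      exact h5
  have hsum : ∑ c ∈ C, ∑ c' ∈ C, (P c + P c' + 2 * (C.card : ℤ) * J c c') ≤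
      ∑ c ∈ C, ∑ c' ∈ C, (2 * (2 * (A.card : ℤ) * B.card + (B.card : ℤ) ^ 2) +
        (if c' = c then 0 else 2 * (A.card : ℤ) * C.card)) :=
    sum_le_sum fun c _ => sum_le_sum fun c' _ => hpair c c'
  have hl : ∑ c ∈ C, ∑ c' ∈ C, (P c + P c' + 2 * (C.card : ℤ) * J c c') =
      2 * (C.card : ℤ) * (∑ c ∈ C, P c + ∑ c ∈ C, ∑ c' ∈ C, J c c') := by
    simp only [sum_add_distrib, sum_const, nsmul_eq_mul, ← mul_sum]
    ring
  have hr : ∑ c ∈ C, ∑ c' ∈ C, (2 * (2 * (A.card : ℤ) * B.card + (B.card : ℤ) ^ 2) +
        (if c' = c then 0 else 2 * (A.card : ℤ) * C.card)) =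
      2 * (C.card : ℤ) * (C.card * (2 * A.card * B.card + (B.card : ℤ) ^ 2) +
        (C.card : ℤ) * (C.card - 1) * A.card) := by
    have h6 : ∀ c ∈ C, ∑ c' ∈ C, (if c' = c then 0 else 2 * (A.card : ℤ) * C.card) =
        (C.card - 1) * (2 * (A.card : ℤ) * C.card) := by
      intro c hc
      rw [← add_sum_erase _ _ hc, if_pos rfl, zero_add,
        sum_congr rfl (fun z hz => if_neg (ne_of_mem_erase hz)), sum_const, nsmul_eq_mul,
        card_erase_of_mem hc, Nat.cast_sub (card_pos.2 ⟨c, hc⟩), Nat.cast_one]
    rw [sum_congr rfl fun c _ => sum_add_distrib, sum_add_distrib, sum_congr rfl h6]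
    simp only [sum_const, nsmul_eq_mul]
    ring
  rw [hl, hr] at hsum
  have hfin := le_of_mul_le_mul_left hsum (by positivity)
  linarith

end K4H69.TT
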