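import Pool.Agent.K4H69.TT.Count

set_option autoImplicit false

/-!
# 3-graphs with a partition into three classes
-/

namespace K4H69.TT

open Finset

variable {n : ℕ}

/-- The 3-graph `H` has no four vertices spanning all four triples. -/
def K43Free (H : Finset (Finset (Fin n))) : Prop :=
  ∀ S : Finset (Fin n), S.card = 4 → ∃ T ⊆ S, T.card = 3 ∧ T ∉ H

/-- the number of vertices in the class `l` -/
def size (c : Fin n → Fin 3) (l : Fin 3) : ℕ := (univ.filter (fun v => c v = l)).card

theorem size_sum (c : Fin n → Fin 3) : size c 0 + size c 1 + size c 2 = n := by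
  have h := card_eq_sum_card_fiberwise (s := (univ : Finset (Fin n))) (t := (univ : Finset (Fin 3)))
    (f := c) (fun _ _ => mem_coe.2 (mem_univ _))
  rw [card_univ, Fintype.card_fin, Fin.sum_univ_three] at h
  exact h.symm

theorem tt_K4 {H : Finset (Finset (Fin n))} (h3 : ∀ e ∈ H, e.card = 3) (hK : K43Free H)
    (x y z w : Fin n) : tt H x y z * tt H x y w * (tt H x z w * tt H y z w) = 0 := by
  by_contra hne
  have h1 : tt H x y z = 1 := by
    rcases tt_zo H x y z with e | e
    · rw [e] at hne; norm_num at hne
    · exact e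
  have h2 : tt H x y w = 1 := by
    rcases tt_zo H x y w with e | e
    · rw [e] at hne; norm_num at hne
    · exact e
  have h4 : tt H x z w = 1 := by
    rcases tt_zo H x z w with e | e
    · rw [e] at hne; norm_num at hne
    · exact e
  have h5 : tt H y z w = 1 := by
    rcases tt_zo H y z w with e | e
    · rw [e] at hne; norm_num at hne
    · exact e
  have hd := tt_diag h3
  have hxy : x ≠ y := by
    rintro rfl
    rw [hd] at h1; norm_num at h1
  have hxz : x ≠ z := by
    rintro rfl
    rw [hd] at h4; norm_num at h4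
  have hyz : y ≠ z := by
    rintro rfl
    rw [hd] at h5; norm_num at h5
  have hxw : x ≠ w := by
    rintro rfl
    rw [tt_s2, hd] at h2; norm_num at h2
  have hyw : y ≠ w := by
    rintro rfl
    rw [tt_s2, hd] at h5; norm_num at h5
  have hzw : z ≠ w := by
    rintro rfl
    rw [tt_s1, tt_s2, hd] at h5; norm_num at h5
  obtain ⟨T, hT, hT3, hTH⟩ := hK {x, y, z, w} (by
    rw [card_insert_of_notMem, card_insert_of_notMem, card_insert_of_notMem, card_singleton]
    · simpa using hzw
    · simp [hyz, hyw]
    · simp [hxy, hxz, hxw])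
  -- `T` is the complement of one vertex
  have h6 : (({x, y, z, w} : Finset (Fin n)) \ T).card = 1 := by
    rw [card_sdiff_of_subset hT, hT3, card_insert_of_notMem, card_insert_of_notMem,
      card_insert_of_notMem, card_singleton]
    · simpa using hzw
    · simp [hyz, hyw]
    · simp [hxy, hxz, hxw]
  obtain ⟨v, hv⟩ := card_eq_one.1 h6
  have h7 : T = ({x, y, z, w} : Finset (Fin n)).erase v := by
    rw [erase_eq, ← hv, Finset.sdiff_sdiff_eq_self hT]
  have hvm : v ∈ ({x, y, z, w} : Finset (Fin n)) := by
    have : v ∈ ({x, y, z, w} : Finset (Fin n)) \ T := by rw [hv]; exact mem_singleton_self v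
    exact (mem_sdiff.1 this).1
  apply hTH
  rw [h7]
  simp only [mem_insert, mem_singleton] at hvm
  rcases hvm with rfl | rfl | rfl | rfl
  · have : ({v, y, z, w} : Finset (Fin n)).erase v = {y, z, w} := by
      rw [erase_insert]; simp [hxy, hxz, hxw]
    rw [this]
    exact tt_eq_one h5
  · have : ({x, v, z, w} : Finset (Fin n)).erase v = {x, z, w} := by
      ext t; simp only [mem_erase, mem_insert, mem_singleton]
      constructor
      · rintro ⟨h1, h2 | h2 | h2 | h2⟩ <;> simp_all
      · rintro (h2 | h2 | h2) <;> simp_all [Ne.symm]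
    rw [this]
    exact tt_eq_one h4
  · have : ({x, y, v, w} : Finset (Fin n)).erase v = {x, y, w} := by
      ext t; simp only [mem_erase, mem_insert, mem_singleton]
      constructor
      · rintro ⟨h1, h2 | h2 | h2 | h2⟩ <;> simp_all
      · rintro (h2 | h2 | h2) <;> simp_all [Ne.symm]
    rw [this]
    exact tt_eq_one h2
  · have : ({x, y, z, v} : Finset (Fin n)).erase v = {x, y, z} := by
      ext t; simp only [mem_erase, mem_insert, mem_singleton]
      constructor
      · rintro ⟨h1, h2 | h2 | h2 | h2⟩ <;> simp_all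
      · rintro (h2 | h2 | h2) <;> simp_all [Ne.symm]
    rw [this]
    exact tt_eq_one h1

theorem sum_classes (c : Fin n → Fin 3) (f : Fin n → ℤ) : ∑ v, f v =
    ∑ v ∈ univ.filter (fun v => c v = 0), f v + ∑ v ∈ univ.filter (fun v => c v = 1), f v +
      ∑ v ∈ univ.filter (fun v => c v = 2), f v := by
  have h := sum_fiberwise_of_maps_to (s := (univ : Finset (Fin n))) (t := (univ : Finset (Fin 3)))
    (g := c) (fun _ _ => mem_univ _) f
  rw [← h, Fin.sum_univ_three]

theorem bound {H : Finset (Finset (Fin n))} (h3 : ∀ e ∈ H, e.card = 3) (hK : K43Free H)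
    (c : Fin n → Fin 3) (hin : ∀ e ∈ H, ∀ l, ∃ v ∈ e, c v ≠ l)
    (hAAB : ∀ x y z, x ≠ y → c x = 0 → c y = 0 → c z = 1 → ({x, y, z} : Finset (Fin n)) ∈ H)
    (hab : size c 0 ≤ size c 1) (hca : size c 2 ≤ size c 0) :
    2 * (H.card : ℤ) ≤ 2 * (size c 0) * (size c 1) * (size c 2) +
      (size c 0) * (size c 0 - 1) * (size c 1) + (size c 1 : ℤ) ^ 2 * (size c 2) +
      (size c 2) * (size c 2 - 1) * (size c 0) + (size c 1) * (size c 1 - 1) := by
  set A := univ.filter (fun v => c v = 0) with hA
  set B := univ.filter (fun v => c v = 1) with hB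
  set D := univ.filter (fun v => c v = 2) with hD
  have hsA : size c 0 = A.card := rfl
  have hsB : size c 1 = B.card := rfl
  have hsD : size c 2 = D.card := rfl
  have key := main_count (tt H) (tt_zo H) (tt_s1 H) (tt_s2 H) (tt_diag h3) (tt_K4 h3 hK) A B D
    (by
      intro x hx y hy z hz hxy
      rw [hA, mem_filter] at hx hy
      rw [hB, mem_filter] at hz
      have := hAAB x y z hxy hx.2 hy.2 hz.2
      unfold tt
      rw [if_pos this]) hab hca
  have h6 := sum_tt h3
  have hS : ∑ a, ∑ b, ∑ d, tt H a b d = TS (tt H) univ univ univ := rfl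
  have hmono : ∀ l, TS (tt H) (univ.filter (fun v => c v = l)) (univ.filter (fun v => c v = l))
      (univ.filter (fun v => c v = l)) = 0 := by
    intro l
    unfold TS
    refine sum_eq_zero fun x hx => sum_eq_zero fun y hy => sum_eq_zero fun z hz => ?_
    rw [mem_filter] at hx hy hz
    unfold tt
    rw [if_neg]
    intro h
    obtain ⟨v, hv, hvl⟩ := hin _ h l
    simp only [mem_insert, mem_singleton] at hv
    rcases hv with rfl | rfl | rfl
    · exact hvl hx.2
    · exact hvl hy.2
    · exact hvl hz.2
  have hexp : TS (tt H) univ univ univ = 3 * TS (tt H) A A B + 3 * TS (tt H) A B B +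
      3 * (TS (tt H) D A A + 2 * TS (tt H) D A B + TS (tt H) D B B) +
      3 * (TS (tt H) D D A + TS (tt H) D D B) := by
    have e1 : TS (tt H) univ univ univ =
        TS (tt H) A univ univ + TS (tt H) B univ univ + TS (tt H) D univ univ := by
      unfold TS
      exact sum_classes c _
    have e2 : ∀ X : Finset (Fin n), TS (tt H) X univ univ =
        TS (tt H) X A univ + TS (tt H) X B univ + TS (tt H) X D univ := by
      intro X
      unfold TS
      rw [← sum_add_distrib, ← sum_add_distrib]
      exact sum_congr rfl fun x _ => sum_classes c _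
    have e3 : ∀ X Y : Finset (Fin n), TS (tt H) X Y univ =
        TS (tt H) X Y A + TS (tt H) X Y B + TS (tt H) X Y D := by
      intro X Y
      unfold TS
      rw [← sum_add_distrib, ← sum_add_distrib]
      refine sum_congr rfl fun x _ => ?_
      rw [← sum_add_distrib, ← sum_add_distrib]
      exact sum_congr rfl fun y _ => sum_classes c _
    have f1 := TS_12 (tt_s1 H)
    have f2 := TS_23 (tt_s2 H)
    rw [e1, e2, e2, e2, e3, e3, e3, e3, e3, e3, e3, e3, e3]
    have m0 := hmono 0
    have m1 := hmono 1
    have m2 := hmono 2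
    rw [← hA] at m0
    rw [← hB] at m1
    rw [← hD] at m2
    -- all orders
    linarith [f2 A A B, f1 A B A, f2 B A A, f1 A B B, f2 B A B, f2 A B D, f2 A A D, f1 A D A,
      f1 A B D, f2 B A D, f1 B D A, f2 D B A, f1 A D B, f2 A D B, f2 D A B, f2 B B D, f1 B D B,
      f1 A D D, f2 D A D, f1 B D D, f2 D B D, f2 A B A, f2 B B A, f1 D A B]
  rw [hS, hexp] at h6
  rw [hsA, hsB, hsD]
  nlinarith

end K4H69.TT
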