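import Pool.Agent.K4H69.TT.Fin

set_option autoImplicit false

/-!
# The bound `5/54 n^3`
-/

namespace K4H69.TT

open Finset

theorem poly_ineq (u w g : ℤ) (hu : 0 ≤ u) (hw : 0 ≤ w) (hg : 0 ≤ g) (h : 1 ≤ g + u) :
    27 * (2 * (g + u) * (g + u + w) * g + (g + u) * (g + u - 1) * (g + u + w) +
      (g + u + w) ^ 2 * g + g * (g - 1) * (g + u) + (g + u + w) * (g + u + w - 1)) ≤
      5 * (g + u + (g + u + w) + g) ^ 3 := by
  have e : 5 * (g + u + (g + u + w) + g) ^ 3 -
      27 * (2 * (g + u) * (g + u + w) * g + (g + u) * (g + u - 1) * (g + u + w) +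
      (g + u + w) ^ 2 * g + g * (g - 1) * (g + u) + (g + u + w) * (g + u + w - 1)) =
      5 * w ^ 3 - 27 * w ^ 2 + 27 * w + u * (27 - 27 * w + 30 * w ^ 2) +
        g * (27 - 27 * w + 18 * w ^ 2) + 33 * u ^ 2 * w + 13 * u ^ 3 + 27 * g * u +
        18 * g * u * w + 18 * g * u ^ 2 + 27 * g ^ 2 := by ring
  have p1 : 0 ≤ 27 - 27 * w + 30 * w ^ 2 := by nlinarith [sq_nonneg (2 * w - 1)]
  have p2 : 0 ≤ 27 - 27 * w + 18 * w ^ 2 := by nlinarith [sq_nonneg (4 * w - 3)]
  have q1 : 0 ≤ 33 * u ^ 2 * w := by positivity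
  have q2 : 0 ≤ 13 * u ^ 3 := by positivity
  have q3 : 0 ≤ 27 * g * u := by positivity
  have q4 : 0 ≤ 18 * g * u * w := by positivity
  have q5 : 0 ≤ 18 * g * u ^ 2 := by positivity
  have q6 : 0 ≤ 27 * g ^ 2 := by positivity
  have q7 : 0 ≤ w ^ 3 := by positivity
  have q8 : 0 ≤ w ^ 2 := by positivity
  rcases le_or_gt 1 u with h1 | h1
  · have r1 : 27 - 27 * w + 30 * w ^ 2 ≤ u * (27 - 27 * w + 30 * w ^ 2) := by nlinarith
    have r2 : 0 ≤ g * (27 - 27 * w + 18 * w ^ 2) := mul_nonneg hg p2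
    linarith
  · have hg1 : 1 ≤ g := by linarith
    have r1 : 0 ≤ u * (27 - 27 * w + 30 * w ^ 2) := mul_nonneg hu p1
    have r2 : 27 - 27 * w + 18 * w ^ 2 ≤ g * (27 - 27 * w + 18 * w ^ 2) := by nlinarith
    have r3 : 27 ≤ 27 * g ^ 2 := by nlinarith
    have r4 : 0 ≤ 5 * w ^ 3 - 9 * w ^ 2 + 54 := by
      rcases le_or_gt w 1 with hw1 | hw1
      · have : w ^ 2 ≤ 1 := by nlinarith
        linarith
      · have hw2 : 2 ≤ w := hw1
        have : 2 * w ^ 2 ≤ w ^ 3 := by nlinarith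
        linarith
    linarith

variable {n : ℕ}

theorem bound' {H : Finset (Finset (Fin n))} (h3 : ∀ e ∈ H, e.card = 3) (hK : K43Free H)
    (c : Fin n → Fin 3) (hin : ∀ e ∈ H, ∀ l, ∃ v ∈ e, c v ≠ l)
    (hAAB : ∀ x y z, x ≠ y → c x = 0 → c y = 0 → c z = 1 → ({x, y, z} : Finset (Fin n)) ∈ H)
    (hab : size c 0 ≤ size c 1) (hca : size c 2 ≤ size c 0) :
    54 * H.card ≤ 5 * n ^ 3 := by
  rcases Nat.eq_zero_or_pos (size c 0) with h0 | h0
  · -- all vertices are in the class `1`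
    have hall : ∀ v, c v = 1 := by
      intro v
      have g0 : c v ≠ 0 := by
        intro h
        have : v ∈ univ.filter (fun v => c v = 0) := mem_filter.2 ⟨mem_univ v, h⟩
        have := card_pos.2 ⟨v, this⟩
        unfold size at h0
        omega
      have g2 : c v ≠ 2 := by
        intro h
        have : v ∈ univ.filter (fun v => c v = 2) := mem_filter.2 ⟨mem_univ v, h⟩
        have := card_pos.2 ⟨v, this⟩
        unfold size at h0 hca
        omega
      have : ∀ l : Fin 3, l ≠ 0 → l ≠ 2 → l = 1 := by decide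
      exact this _ g0 g2
    have hH : H = ∅ := by
      rw [eq_empty_iff_forall_notMem]
      intro e he
      obtain ⟨v, _, hv⟩ := hin e he 1
      exact hv (hall v)
    rw [hH]
    simp
  · have h1 := bound h3 hK c hin hAAB hab hca
    obtain ⟨u, hu⟩ : ∃ u, size c 0 = size c 2 + u := ⟨size c 0 - size c 2, by omega⟩
    obtain ⟨w, hw⟩ : ∃ w, size c 1 = size c 0 + w := ⟨size c 1 - size c 0, by omega⟩
    have hn := size_sum c
    have h2 := poly_ineq (u : ℤ) (w : ℤ) (size c 2 : ℤ) (by positivity) (by positivity)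
      (by positivity) (by exact_mod_cast (by omega : 1 ≤ size c 2 + u))
    have e0 : (size c 0 : ℤ) = size c 2 + u := by exact_mod_cast hu
    have e1 : (size c 1 : ℤ) = size c 2 + u + w := by rw [← e0]; exact_mod_cast hw
    have en : (n : ℤ) = size c 2 + u + (size c 2 + u + w) + size c 2 := by
      rw [← e1, ← e0]
      exact_mod_cast hn.symm
    rw [e0, e1] at h1
    have h3' : 54 * (H.card : ℤ) ≤ 5 * (n : ℤ) ^ 3 := by
      rw [en]
      refine le_trans ?_ h2
      linarith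
    exact_mod_cast h3'

end K4H69.TT
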