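import Mathlib

set_option autoImplicit false

/-!
# The numerical inequality
-/

namespace K4H69.TT

/-- scaled form -/
theorem num_scaled (x v u w : ℝ) (hx0 : 0 ≤ x) (hx1 : x ≤ 1) (hv : 0 ≤ v) (hu : 0 ≤ u)
    (hw : w ≤ x) :
    0 ≤ (w - x * u) ^ 2 + (1 - x) ^ 2 + (v - u) ^ 2 + x ^ 2 * (2 * v - u ^ 2) := by
  have hx2 : 0 ≤ 1 - x ^ 2 := by nlinarith
  rcases le_total u 1 with h1 | h1
  · have h2 : 0 ≤ (v - u) ^ 2 + x ^ 2 * (2 * v - u ^ 2) := by
      rcases le_total u (x ^ 2) with h3 | h3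
      · have e : (v - u) ^ 2 + x ^ 2 * (2 * v - u ^ 2) =
            v ^ 2 + 2 * v * (x ^ 2 - u) + u ^ 2 * (1 - x ^ 2) := by ring
        rw [e]
        have := mul_nonneg hv (sub_nonneg.2 h3)
        have := mul_nonneg (sq_nonneg u) hx2
        nlinarith [sq_nonneg v]
      · have e : (v - u) ^ 2 + x ^ 2 * (2 * v - u ^ 2) =
            (v - (u - x ^ 2)) ^ 2 + x ^ 2 * ((u - x ^ 2) + u * (1 - u)) := by ring
        rw [e]
        have h4 : 0 ≤ (u - x ^ 2) + u * (1 - u) :=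
          add_nonneg (sub_nonneg.2 h3) (mul_nonneg hu (sub_nonneg.2 h1))
        have := mul_nonneg (sq_nonneg x) h4
        nlinarith [sq_nonneg (v - (u - x ^ 2))]
    nlinarith [sq_nonneg (w - x * u), sq_nonneg (1 - x)]
  · have h2 : x ^ 2 * (u - 1) ^ 2 ≤ (w - x * u) ^ 2 := by
      have h3 : 0 ≤ x * (u - 1) := mul_nonneg hx0 (sub_nonneg.2 h1)
      have h4 : x * (u - 1) ≤ x * u - w := by nlinarith
      have h5 : (x * (u - 1)) ^ 2 ≤ (x * u - w) ^ 2 := by
        apply pow_le_pow_left₀ h3 h4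
      nlinarith
    have e : x ^ 2 * (u - 1) ^ 2 + (1 - x) ^ 2 + (v - u) ^ 2 + x ^ 2 * (2 * v - u ^ 2) =
        ((u - v) - x ^ 2) ^ 2 + (1 - x) ^ 2 + x ^ 2 * (1 - x ^ 2) := by ring
    have h6 := mul_nonneg (sq_nonneg x) hx2
    nlinarith [sq_nonneg ((u - v) - x ^ 2), sq_nonneg (1 - x)]

/-- the inequality for two vertices of the third class -/
theorem num (a b g X Y w : ℝ) (ha : 0 < a) (hg0 : 0 ≤ g) (hga : g ≤ a) (hab : a ≤ b)
    (hX0 : 0 ≤ X) (hXa : X ≤ a) (hY0 : 0 ≤ Y) (hYb : Y ≤ b) (hw0 : 0 ≤ w) (hwX : w ≤ X) :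
    2 * a * g * (X + Y - a) ≤
      X ^ 2 * (2 * b - a) - 2 * X * (b - Y) * w + a * w ^ 2 + a * Y ^ 2 := by
  have key : 0 ≤ X ^ 2 * (2 * b - a) - 2 * X * (b - Y) * w + a * w ^ 2 + a * Y ^ 2 -
      2 * a ^ 2 * (X + Y - a) := by
    have h := num_scaled (X / a) (b / a - 1) ((b - Y) / a) (w / a) (by positivity)
      ((div_le_one ha).2 hXa) (by rw [sub_nonneg]; exact (one_le_div ha).2 hab)
      (div_nonneg (sub_nonneg.2 hYb) ha.le) (by gcongr)
    have e : X ^ 2 * (2 * b - a) - 2 * X * (b - Y) * w + a * w ^ 2 + a * Y ^ 2 -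
        2 * a ^ 2 * (X + Y - a) = a ^ 3 * ((w / a - X / a * ((b - Y) / a)) ^ 2 +
          (1 - X / a) ^ 2 + (b / a - 1 - (b - Y) / a) ^ 2 +
          (X / a) ^ 2 * (2 * (b / a - 1) - ((b - Y) / a) ^ 2)) := by
      field_simp
      ring
    rw [e]
    positivity
  rcases le_total (X + Y - a) 0 with h | h
  · have h1 : 2 * a * g * (X + Y - a) ≤ 0 := mul_nonpos_of_nonneg_of_nonpos (by positivity) h
    -- the right side is nonnegative
    have h2 : 0 ≤ X ^ 2 * (2 * b - a) - 2 * X * (b - Y) * w + a * w ^ 2 + a * Y ^ 2 := by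
      rcases le_total (b - Y) a with h3 | h3
      · have h4 : 0 ≤ (a * w - X * (b - Y)) ^ 2 := sq_nonneg _
        have h5 : 0 ≤ b - Y := sub_nonneg.2 hYb
        have h6 : X ^ 2 * (b - Y) ^ 2 ≤ X ^ 2 * (a * (2 * b - a)) := by
          apply mul_le_mul_of_nonneg_left _ (sq_nonneg X)
          nlinarith
        have h7 : 0 ≤ a * (X ^ 2 * (2 * b - a) - 2 * X * (b - Y) * w + a * w ^ 2) := by
          nlinarith
        have h8 := nonneg_of_mul_nonneg_right h7 ha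
        have h9 : 0 ≤ a * Y ^ 2 := by positivity
        linarith
      · have h3' : 0 ≤ X * (b - Y - a) := mul_nonneg hX0 (sub_nonneg.2 h3)
        have h4 : 0 ≤ (X - w) * (2 * X * (b - Y) - a * (X + w)) := by
          apply mul_nonneg (sub_nonneg.2 hwX)
          nlinarith
        have h5 : 0 ≤ X ^ 2 * Y := by positivity
        have h9 : 0 ≤ a * Y ^ 2 := by positivity
        have e : X ^ 2 * (2 * b - a) - 2 * X * (b - Y) * w + a * w ^ 2 =
            2 * (X ^ 2 * Y) + (X - w) * (2 * X * (b - Y) - a * (X + w)) := by ring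
        linarith
    linarith
  · have h1 : 2 * a * g * (X + Y - a) ≤ 2 * a * a * (X + Y - a) := by
      apply mul_le_mul_of_nonneg_right _ h
      nlinarith
    nlinarith

end K4H69.TT
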